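import Pool.Agent.H564R3.AP.TestsNN
import Pool.Agent.H564R3.AP.GatesBal
import Pool.Agent.H564R3.RD.Pick
import Pool.Agent.H564R3.RD.Weights
import Pool.Agent.H564R3.RD.Main

/-! Randomised approximation of the permanent by pure programs. -/

set_option autoImplicit false

namespace Pool.Agent.H564R3.AP

open Finset
open Pool.Agent.H564R3.PW (Instr runs exec syms)
open Pool.Agent.H564R3.TS
open Pool.Agent.H564R3.RD (pick weights M_sum)
open scoped NNReal

theorem M_perm {n : ℕ} (w : Fin n × Fin n → ℕ) :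
    (Matrix.of fun i j => ((w (i, j) : ℕ) : ℝ≥0)).permanent =
      ∑ σ : Equiv.Perm (Fin n), ∏ x ∈ pgraph σ, ((w x : ℕ) : ℝ≥0) := by
  rw [Matrix.permanent]
  refine sum_congr rfl fun σ _ => ?_
  unfold pgraph
  rw [prod_image (fun i _ j _ h => congrArg Prod.snd h)]
  rfl

theorem random_perm {n : ℕ} {ρ : Type} [DecidableEq ρ] {Λ : Type} [Fintype Λ] (e : ℝ) (r : ℝ≥0)
    (q : Λ → ℝ) (p : Λ → List (Instr ℝ≥0 (Fin n × Fin n) ρ)) (o : ρ)
    (h : RandomApprox e r q p o) (T : ℕ) (hT : ∀ l, (p l).length ≤ T) (hn : 2 ≤ n) :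
    (1 - 2 * e) * 2 ^ n ≤ ((n + 1) * T : ℝ) := by
  classical
  obtain ⟨hq, hsum, hcor⟩ := h
  obtain ⟨K, hK1, hK2⟩ := weights (psup (n := n)) 2 (by norm_num)
  choose t₀ ht₀ using fun l => tests_nn (p l) o (r * (n.factorial : ℝ≥0) + r)
  obtain ⟨t, ht⟩ : ∃ t : ℕ, ∀ l, t₀ l ≤ t := ⟨univ.sup t₀, fun l => le_sup (mem_univ l)⟩
  set κ : Fin n × Fin n → ℕ := fun x => ∑ e ∈ psup x, K e with hκ
  set W : ℕ := ∑ e, K e with hW
  set F : Finset (Finset (Fin n × Fin n)) := univ.image pgraph with hF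
  have hFcard : F.card = n.factorial := perm_card n
  have hprod : ∀ σ : Equiv.Perm (Fin n), ∏ x ∈ pgraph σ, ((t ^ κ x : ℕ) : ℝ≥0) =
      (t : ℝ≥0) ^ W := by
    intro σ
    rw [← Nat.cast_prod, prod_pow_eq_pow_sum, hκ, M_sum (perm_exact σ), Nat.cast_pow]
  -- first test: all permutations have the same weight
  have h1 : ∀ l, Approx r (p l) o (fun x => t ^ κ x) →
      ∀ u ∈ syms (p l) o, ∑ x, u x * κ x ≤ W := by
    rintro l ⟨_, hv⟩
    refine (ht₀ l t (ht l) κ W).1 (hv.trans ?_)
    rw [M_perm (fun x => t ^ κ x), sum_congr rfl (fun σ _ => hprod σ), sum_const, card_univ,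
      Fintype.card_perm, Fintype.card_fin, nsmul_eq_mul, ← mul_assoc]
    exact mul_le_mul_left le_self_add _
  -- second test: one permutation only
  have h2 : ∀ l, ∀ A ∈ F, Approx r (p l) o (fun x => t ^ κ x) →
      Approx r (p l) o (fun x => if x ∈ A then t ^ κ x else 0) → ind A ∈ syms (p l) o := by
    intro l A hA hc1 hc2
    rw [hF, mem_image] at hA
    obtain ⟨σ, _, rfl⟩ := hA
    have hge : (t : ℝ≥0) ^ W ≤
        (Matrix.of fun i j => (((fun x => if x ∈ pgraph σ then t ^ κ x else 0) (i, j) : ℕ) :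
          ℝ≥0)).permanent := by
      rw [M_perm (fun x => if x ∈ pgraph σ then t ^ κ x else 0)]
      refine le_trans (le_of_eq ?_) (single_le_sum (f := fun τ : Equiv.Perm (Fin n) =>
        ∏ x ∈ pgraph τ, (((if x ∈ pgraph σ then t ^ κ x else 0 : ℕ)) : ℝ≥0))
        (fun _ _ => bot_le) (mem_univ σ))
      rw [← hprod σ]
      refine prod_congr rfl fun x hx => ?_
      rw [if_pos hx]
    obtain ⟨u, hu, hoff, hle⟩ := (ht₀ l t (ht l) κ W).2 (pgraph σ) (by
      refine (hge.trans hc2.1).trans ?_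
      exact mul_le_mul_left le_add_self _)
    have hge := h1 l hc1 u hu
    have h6 := hK2 (pgraph σ) (perm_exact σ) u hoff (le_antisymm hge hle)
    rw [← h6]
    exact hu
  obtain ⟨l, hl⟩ := pick q hq hsum e F (fun l => Approx r (p l) o (fun x => t ^ κ x))
    (fun l A => Approx r (p l) o (fun x => if x ∈ A then t ^ κ x else 0)) (by
      have := hcor (fun x => t ^ κ x)
      convert this using 3) (by
      intro A _
      have := hcor (fun x => if x ∈ A then t ^ κ x else 0)
      convert this using 3)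
  rcases le_or_gt (1 - 2 * e) 0 with he | he
  · refine (mul_nonpos_of_nonpos_of_nonneg he (by positivity)).trans (by positivity)
  · set F' := F.filter (fun A => Approx r (p l) o (fun x => t ^ κ x) ∧
      Approx r (p l) o (fun x => if x ∈ A then t ^ κ x else 0)) with hF'
    have hfac : (0 : ℝ) < (n.factorial : ℝ) := by exact_mod_cast Nat.factorial_pos n
    have hcard : (1 - 2 * e) * (n.factorial : ℝ) ≤ (F'.card : ℝ) := by
      rw [← hFcard]; exact hl
    have hne : 0 < F'.card := by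
      have : (0 : ℝ) < (F'.card : ℝ) := lt_of_lt_of_le (mul_pos he hfac) hcard
      exact_mod_cast this
    obtain ⟨A₀, hA₀⟩ := card_pos.1 hne
    have hG := (mem_filter.1 hA₀).2.1
    have hg := gates_bal psup n hn (fun P s G hP hG => perm_count P s G hP hG) (p l) o K hK1
      (Or.inr (h1 l hG)) F' (by
        intro A hA
        have hA' := (mem_filter.1 hA).1
        rw [hF, mem_image] at hA'
        obtain ⟨σ, _, rfl⟩ := hA'
        refine ⟨perm_exact σ, ?_⟩
        unfold pgraph
        rw [card_image_of_injective _ (fun i j h => congrArg Prod.snd h), card_univ,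
          Fintype.card_fin]) (by
        intro A hA
        rw [hF', mem_filter] at hA
        exact h2 l A hA.1 hG hA.2.2)
    have hg2 : 2 ^ n * F'.card ≤ T * ((n + 1) * n.factorial) :=
      hg.trans (Nat.mul_le_mul_right _ (hT l))
    have hg3 : (2 : ℝ) ^ n * (F'.card : ℝ) ≤
        (T : ℝ) * (((n : ℝ) + 1) * (n.factorial : ℝ)) := by
      exact_mod_cast hg2
    have hfin : ((1 - 2 * e) * 2 ^ n) * (n.factorial : ℝ) ≤
        ((n + 1) * T : ℝ) * (n.factorial : ℝ) := by
      calc ((1 - 2 * e) * 2 ^ n) * (n.factorial : ℝ)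
          = 2 ^ n * ((1 - 2 * e) * (n.factorial : ℝ)) := by ring
        _ ≤ 2 ^ n * (F'.card : ℝ) := mul_le_mul_of_nonneg_left hcard (by positivity)
        _ ≤ _ := hg3
        _ = _ := by ring
    exact le_of_mul_le_mul_right hfin hfac

end Pool.Agent.H564R3.AP
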