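import Pool.Agent.H564R3.AP.Defs

/-! Stubs (statements only): every theorem goes to its own file, see `h564k_tasks`. -/

set_option autoImplicit false

namespace Pool.Agent.H564R3.AP

open Finset
open Pool.Agent.H564R3.PW (Instr runs exec syms)
open Pool.Agent.H564R3.TS
open scoped NNReal

/-! ### A (TestsNN.lean) -/

theorem tests_nn {X ρ : Type} [Fintype X] [DecidableEq X] [DecidableEq ρ]
    (p : List (Instr ℝ≥0 X ρ)) (o : ρ) (C : ℝ≥0) :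
    ∃ t₀ : ℕ, ∀ t : ℕ, t₀ ≤ t → ∀ (κ : X → ℕ) (W : ℕ),
      (exec (fun x => ((t ^ κ x : ℕ) : ℝ≥0)) p o ≤ C * (t : ℝ≥0) ^ W →
        ∀ u ∈ syms p o, ∑ x, u x * κ x ≤ W) ∧
      ∀ A : Finset X,
        (t : ℝ≥0) ^ W ≤ C * exec (fun x => (((if x ∈ A then t ^ κ x else 0 : ℕ)) : ℝ≥0)) p o →
        ∃ u ∈ syms p o, (∀ x, x ∉ A → u x = 0) ∧ W ≤ ∑ x, u x * κ x := by
  sorry

/-! ### F (GatesBal.lean; uses EU.Gates and RD.Fact) -/

theorem gates_bal {R X E ρ : Type} [Zero R] [Fintype X] [DecidableEq X] [Fintype E]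
    [DecidableEq E] [DecidableEq ρ] (sup : X → Finset E) (N : ℕ) (hN : 2 ≤ N)
    (hcount : ∀ (P : Finset E) (s : ℕ) (G : Finset (Finset X)), P.card = 2 * s →
      (∀ B ∈ G, Exact sup 2 P B) → G.card ≤ s.factorial)
    (p : List (Instr R X ρ)) (o : ρ) (K : E → ℕ)
    (hK : ∀ P P' : Finset E, ∑ e ∈ P, K e = ∑ e ∈ P', K e → P = P')
    (hbal : (∀ u ∈ syms p o, ∑ e, K e ≤ ∑ x, u x * (∑ e ∈ sup x, K e)) ∨
      ∀ u ∈ syms p o, ∑ x, u x * (∑ e ∈ sup x, K e) ≤ ∑ e, K e)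
    (F : Finset (Finset X)) (hF : ∀ A ∈ F, Exact sup 2 univ A ∧ A.card = N)
    (hmem : ∀ A ∈ F, ind A ∈ syms p o) :
    2 ^ N * F.card ≤ p.length * ((N + 1) * N.factorial) := by
  sorry

/-! ### M (Main.lean) -/

theorem random_perm {n : ℕ} {ρ : Type} [DecidableEq ρ] {Λ : Type} [Fintype Λ] (e : ℝ) (r : ℝ≥0)
    (q : Λ → ℝ) (p : Λ → List (Instr ℝ≥0 (Fin n × Fin n) ρ)) (o : ρ)
    (h : RandomApprox e r q p o) (T : ℕ) (hT : ∀ l, (p l).length ≤ T) (hn : 2 ≤ n) :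
    (1 - 2 * e) * 2 ^ n ≤ ((n + 1) * T : ℝ) := by
  sorry

end Pool.Agent.H564R3.AP
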